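import Mathlib
import Pool.Agent.H97.L.S8.H438R2.BR.Defs
set_option autoImplicit false

/-! Task T4 (helper633): the quadratic form bounds `Q1_bound`, `Q2_bound`. -/

namespace Pool.Agent.H438R2.BR

open MeasureTheory Set Complex
open scoped ENNReal

namespace T4

/-- the Cauchy kernel has total mass `pi / s * B` -/
lemma cauchy_mass (B s x : ℝ) (hB : 0 < B) (hs : 0 < s) :
    ∫⁻ y : ℝ, ENNReal.ofReal (B / (1 + s ^ 2 * (x - y) ^ 2)) =
      ENNReal.ofReal (B * Real.pi / s) := by
  have hcont : Integrable (fun y : ℝ => B * (1 + (s * (x - y)) ^ 2)⁻¹) := by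
    have h1 := integrable_inv_one_add_sq.comp_mul_left' hs.ne'
    have h2 := (h1.comp_sub_left x).const_mul B
    exact h2
  have heq : ∀ y : ℝ, B / (1 + s ^ 2 * (x - y) ^ 2) = B * (1 + (s * (x - y)) ^ 2)⁻¹ := by
    intro y
    rw [mul_pow]
    rfl
  simp_rw [heq]
  rw [← ofReal_integral_eq_lintegral_ofReal hcont
    (Filter.Eventually.of_forall fun y => by positivity)]
  congr 1
  rw [integral_const_mul]
  have h1 := integral_sub_left_eq_self (fun y : ℝ => (1 + (s * y) ^ 2)⁻¹) volume x
  rw [h1]
  have h2 := MeasureTheory.Measure.integral_comp_mul_left (fun y : ℝ => (1 + y ^ 2)⁻¹) s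
  rw [h2, integral_univ_inv_one_add_sq, smul_eq_mul, abs_of_pos (inv_pos.2 hs)]
  field_simp

/-- the constant -/
noncomputable def c : ℝ := 2 / Real.pi ^ 2

lemma c_pos : 0 < c := by unfold c; have := Real.pi_pos; positivity

/-- the inner integral -/
lemma inner (B t x : ℝ) (hB : 1 ≤ B) (ht : 0 < t) (D : ℝ → ℝ)
    (hD : ∀ y ∈ Q, c * t * |x - y| ≤ |D y|) :
    ∫⁻ y in Q, ENNReal.ofReal (K B (D y)) ≤
      ENNReal.ofReal (min (B * (Real.pi / 2)) (Real.pi / (c * t))) := by
  have hB0 : 0 < B := by linarith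
  have hc := c_pos
  have hpi := Real.pi_pos
  have hQm : MeasurableSet Q := measurableSet_Ioo
  have b1 : ∫⁻ y in Q, ENNReal.ofReal (K B (D y)) ≤ ENNReal.ofReal (B * (Real.pi / 2)) := by
    calc ∫⁻ y in Q, ENNReal.ofReal (K B (D y)) ≤ ∫⁻ y in Q, ENNReal.ofReal B := by
          apply lintegral_mono
          intro y
          apply ENNReal.ofReal_le_ofReal
          unfold K
          apply div_le_self hB0.le
          nlinarith [mul_nonneg (sq_nonneg B) (sq_nonneg (D y))]
      _ = ENNReal.ofReal (B * (Real.pi / 2)) := by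
          rw [setLIntegral_const, Q, Real.volume_Ioo, sub_zero, ← ENNReal.ofReal_mul hB0.le]
  have b2 : ∫⁻ y in Q, ENNReal.ofReal (K B (D y)) ≤ ENNReal.ofReal (Real.pi / (c * t)) := by
    calc ∫⁻ y in Q, ENNReal.ofReal (K B (D y))
        ≤ ∫⁻ y in Q, ENNReal.ofReal (B / (1 + (B * c * t) ^ 2 * (x - y) ^ 2)) := by
          apply setLIntegral_mono' hQm
          intro y hy
          apply ENNReal.ofReal_le_ofReal
          unfold K
          have h1 := hD y hy
          have h2 : (c * t * |x - y|) ^ 2 ≤ (D y) ^ 2 := by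
            rw [← sq_abs (D y)]
            apply pow_le_pow_left₀ _ h1
            positivity
          apply div_le_div_of_nonneg_left hB0.le
          · positivity
          · have h3 : (B * c * t) ^ 2 * (x - y) ^ 2 = B ^ 2 * (c * t * |x - y|) ^ 2 := by
              rw [mul_pow (c * t), sq_abs]; ring
            rw [h3]
            have := mul_le_mul_of_nonneg_left h2 (sq_nonneg B)
            linarith
      _ ≤ ∫⁻ y : ℝ, ENNReal.ofReal (B / (1 + (B * c * t) ^ 2 * (x - y) ^ 2)) :=
          setLIntegral_le_lintegral _ _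
      _ = ENNReal.ofReal (B * Real.pi / (B * c * t)) :=
          cauchy_mass B (B * c * t) x hB0 (by positivity)
      _ = ENNReal.ofReal (Real.pi / (c * t)) := by
          congr 1
          field_simp
  rcases min_cases (B * (Real.pi / 2)) (Real.pi / (c * t)) with ⟨h, _⟩ | ⟨h, _⟩
  · rw [h]; exact b1
  · rw [h]; exact b2

/-- the constant of the bound -/
noncomputable def CC : ℝ := Real.pi / 2 + Real.pi / c

lemma CC_pos : 0 < CC := by
  unfold CC
  have := Real.pi_pos
  have := c_pos
  positivity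

/-- the outer integral -/
lemma outer (B : ℝ) (hB : 1 ≤ B) :
    ∫⁻ x in Q, ENNReal.ofReal (min (B * (Real.pi / 2)) (Real.pi / (c * x))) ≤
      ENNReal.ofReal (CC * (1 + Real.log B)) := by
  have hB0 : 0 < B := by linarith
  have hc := c_pos
  have hpi := Real.pi_pos
  have hpi2 : 1 < Real.pi / 2 := by have := Real.pi_gt_three; linarith
  have hiB : 0 < 1 / B := by positivity
  have hiB1 : 1 / B ≤ 1 := by rw [div_le_one hB0]; exact hB
  have hlog : 0 ≤ Real.log B := Real.log_nonneg hB
  have hsub : Q ⊆ Ioc 0 (1 / B) ∪ Ioc (1 / B) (Real.pi / 2) := by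
    intro x hx
    rcases le_or_gt x (1 / B) with h | h
    · exact Or.inl ⟨hx.1, h⟩
    · exact Or.inr ⟨h, hx.2.le⟩
  have a1 : ∫⁻ x in Ioc 0 (1 / B), ENNReal.ofReal (min (B * (Real.pi / 2)) (Real.pi / (c * x)))
      ≤ ENNReal.ofReal (Real.pi / 2) := by
    calc ∫⁻ x in Ioc 0 (1 / B), ENNReal.ofReal (min (B * (Real.pi / 2)) (Real.pi / (c * x)))
        ≤ ∫⁻ x in Ioc 0 (1 / B), ENNReal.ofReal (B * (Real.pi / 2)) := by
          apply lintegral_mono
          intro x
          exact ENNReal.ofReal_le_ofReal (min_le_left _ _)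
      _ = ENNReal.ofReal (Real.pi / 2) := by
          rw [setLIntegral_const, Real.volume_Ioc, sub_zero, ← ENNReal.ofReal_mul (by positivity)]
          congr 1
          field_simp
  have hint : IntervalIntegrable (fun x : ℝ => Real.pi / c * x⁻¹) volume (1 / B)
      (Real.pi / 2) := by
    apply ContinuousOn.intervalIntegrable
    apply ContinuousOn.mul continuousOn_const
    apply ContinuousOn.inv₀ continuousOn_id
    intro x hx
    rw [uIcc_of_le (by linarith)] at hx
    have : 0 < x := lt_of_lt_of_le hiB hx.1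
    exact this.ne'
  have a2 : ∫⁻ x in Ioc (1 / B) (Real.pi / 2),
      ENNReal.ofReal (min (B * (Real.pi / 2)) (Real.pi / (c * x)))
      ≤ ENNReal.ofReal (Real.pi / c * (1 + Real.log B)) := by
    calc ∫⁻ x in Ioc (1 / B) (Real.pi / 2),
          ENNReal.ofReal (min (B * (Real.pi / 2)) (Real.pi / (c * x)))
        ≤ ∫⁻ x in Ioc (1 / B) (Real.pi / 2), ENNReal.ofReal (Real.pi / c * x⁻¹) := by
          apply lintegral_mono
          intro x
          apply ENNReal.ofReal_le_ofReal
          refine (min_le_right _ _).trans (le_of_eq ?_)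
          rw [← div_div]
          rfl
      _ = ENNReal.ofReal (∫ x in (1 / B)..(Real.pi / 2), Real.pi / c * x⁻¹) := by
          rw [intervalIntegral.integral_of_le (by linarith)]
          rw [ofReal_integral_eq_lintegral_ofReal]
          · exact (intervalIntegrable_iff_integrableOn_Ioc_of_le (by linarith)).1 hint
          · rw [Filter.EventuallyLE, ae_restrict_iff' measurableSet_Ioc]
            apply Filter.Eventually.of_forall
            intro x hx
            have : 0 < x := lt_trans hiB hx.1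
            simp only [Pi.zero_apply]
            positivity
      _ ≤ ENNReal.ofReal (Real.pi / c * (1 + Real.log B)) := by
          apply ENNReal.ofReal_le_ofReal
          rw [intervalIntegral.integral_const_mul]
          apply mul_le_mul_of_nonneg_left _ (by positivity)
          rw [integral_inv_of_pos hiB (by positivity)]
          have h1 : Real.pi / 2 / (1 / B) = Real.pi / 2 * B := by field_simp
          rw [h1, Real.log_mul (by positivity) (by positivity)]
          have h2 := Real.log_le_sub_one_of_pos (show (0 : ℝ) < Real.pi / 2 by positivity)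
          have h3 := Real.pi_le_four
          linarith
  calc ∫⁻ x in Q, ENNReal.ofReal (min (B * (Real.pi / 2)) (Real.pi / (c * x)))
      ≤ ∫⁻ x in Ioc 0 (1 / B) ∪ Ioc (1 / B) (Real.pi / 2),
          ENNReal.ofReal (min (B * (Real.pi / 2)) (Real.pi / (c * x))) :=
        lintegral_mono_set hsub
    _ ≤ ENNReal.ofReal (Real.pi / 2) + ENNReal.ofReal (Real.pi / c * (1 + Real.log B)) :=
        (lintegral_union_le _ _ _).trans (add_le_add a1 a2)
    _ = ENNReal.ofReal (Real.pi / 2 + Real.pi / c * (1 + Real.log B)) := by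
        rw [ENNReal.ofReal_add (by positivity) (by positivity)]
    _ ≤ ENNReal.ofReal (CC * (1 + Real.log B)) := by
        apply ENNReal.ofReal_le_ofReal
        unfold CC
        nlinarith [mul_nonneg (show (0 : ℝ) ≤ Real.pi / 2 by positivity) hlog]

/-- the reflection of the quarter circle -/
lemma refl (f : ℝ → ℝ≥0∞) (hf : Measurable f) :
    ∫⁻ x in Q, f (Real.pi / 2 - x) = ∫⁻ x in Q, f x := by
  have h := Measure.measurePreserving_sub_left (volume : Measure ℝ) (Real.pi / 2)
  have hpre : (fun x : ℝ => Real.pi / 2 - x) ⁻¹' Q = Q := by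
    ext x
    simp only [Q, mem_preimage, mem_Ioo]
    constructor <;> rintro ⟨h1, h2⟩ <;> constructor <;> linarith
  have h2 := h.setLIntegral_comp_preimage (s := Q) measurableSet_Ioo hf
  rw [hpre] at h2
  exact h2

lemma outer' (B : ℝ) (hB : 1 ≤ B) :
    ∫⁻ x in Q, ENNReal.ofReal (min (B * (Real.pi / 2)) (Real.pi / (c * (Real.pi / 2 - x)))) ≤
      ENNReal.ofReal (CC * (1 + Real.log B)) := by
  rw [refl (fun x => ENNReal.ofReal (min (B * (Real.pi / 2)) (Real.pi / (c * x))))
    (by fun_prop)]
  exact outer B hB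

/-- a lower bound for the sine on half differences -/
lemma sin_half (x y : ℝ) (hx : x ∈ Q) (hy : y ∈ Q) :
    |x - y| / Real.pi ≤ |Real.sin ((x - y) / 2)| := by
  have hpi := Real.pi_pos
  obtain ⟨x1, x2⟩ := hx
  obtain ⟨y1, y2⟩ := hy
  have key : ∀ v : ℝ, 0 ≤ v → v ≤ Real.pi / 2 → v / Real.pi ≤ Real.sin (v / 2) := by
    intro v h1 h2
    have := Real.mul_le_sin (x := v / 2) (by linarith) (by linarith)
    calc v / Real.pi = 2 / Real.pi * (v / 2) := by field_simp
      _ ≤ _ := this
  rcases le_total y x with h | h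
  · have h1 := key (x - y) (by linarith) (by linarith)
    rw [abs_of_nonneg (by linarith : (0 : ℝ) ≤ x - y)]
    exact h1.trans (le_abs_self _)
  · have h1 := key (y - x) (by linarith) (by linarith)
    rw [abs_of_nonpos (by linarith : x - y ≤ 0)]
    have h2 : (x - y) / 2 = -((y - x) / 2) := by ring
    rw [h2, Real.sin_neg, abs_neg, neg_sub]
    exact h1.trans (le_abs_self _)

lemma sin_sub_lower (x y : ℝ) (hx : x ∈ Q) (hy : y ∈ Q) :
    c * (Real.pi / 2 - x) * |x - y| ≤ |Real.sin x - Real.sin y| := by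
  have hpi := Real.pi_pos
  have h1 := sin_half x y hx hy
  have h2 : (Real.pi / 2 - x) / Real.pi ≤ |Real.cos ((x + y) / 2)| := by
    obtain ⟨x1, x2⟩ := hx
    obtain ⟨y1, y2⟩ := hy
    refine le_trans ?_ (le_abs_self _)
    rw [← Real.sin_pi_div_two_sub]
    have := Real.mul_le_sin (x := Real.pi / 2 - (x + y) / 2) (by linarith) (by linarith)
    refine le_trans ?_ this
    have h3 : (Real.pi / 2 - x) / Real.pi = 2 / Real.pi * ((Real.pi / 2 - x) / 2) := by
      field_simp
    rw [h3]
    apply mul_le_mul_of_nonneg_left _ (by positivity)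
    linarith
  rw [Real.sin_sub_sin, abs_mul, abs_mul, abs_of_pos (show (0 : ℝ) < 2 by norm_num)]
  have h4 : 0 ≤ |x - y| / Real.pi := by positivity
  have h5 : 0 ≤ (Real.pi / 2 - x) / Real.pi := by
    have := hx.2
    apply div_nonneg _ hpi.le
    linarith
  have h6 := mul_le_mul h1 h2 h5 (abs_nonneg _)
  calc c * (Real.pi / 2 - x) * |x - y| =
        2 * (|x - y| / Real.pi * ((Real.pi / 2 - x) / Real.pi)) := by
        unfold c
        field_simp
    _ ≤ 2 * (|Real.sin ((x - y) / 2)| * |Real.cos ((x + y) / 2)|) := by linarith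
    _ = _ := by ring

lemma cos_sub_lower (x y : ℝ) (hx : x ∈ Q) (hy : y ∈ Q) :
    c * x * |x - y| ≤ |Real.cos x - Real.cos y| := by
  have h := sin_sub_lower (Real.pi / 2 - x) (Real.pi / 2 - y)
    ⟨by linarith [hx.2], by linarith [hx.1]⟩ ⟨by linarith [hy.2], by linarith [hy.1]⟩
  rw [Real.sin_pi_div_two_sub, Real.sin_pi_div_two_sub] at h
  have h1 : Real.pi / 2 - (Real.pi / 2 - x) = x := by ring
  have h2 : |Real.pi / 2 - x - (Real.pi / 2 - y)| = |x - y| := by
    rw [← abs_neg]
    congr 1
    ring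
  rw [h1, h2] at h
  exact h

lemma Q1s (B : ℝ) (hB : 1 ≤ B) :
    ∫⁻ x in Q, ∫⁻ y in Q, ENNReal.ofReal (K B (Real.sin x - Real.sin y)) ≤
      ENNReal.ofReal (CC * (1 + Real.log B)) := by
  refine le_trans ?_ (outer' B hB)
  apply setLIntegral_mono' measurableSet_Ioo
  intro x hx
  exact inner B (Real.pi / 2 - x) x hB (by linarith [hx.2]) _
    (fun y hy => sin_sub_lower x y hx hy)

lemma Q1c (A : ℝ) (hA : 1 ≤ A) :
    ∫⁻ x in Q, ∫⁻ y in Q, ENNReal.ofReal (K A (Real.cos x - Real.cos y)) ≤
      ENNReal.ofReal (CC * (1 + Real.log A)) := by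
  refine le_trans ?_ (outer A hA)
  apply setLIntegral_mono' measurableSet_Ioo
  intro x hx
  exact inner A x x hA hx.1 _ (fun y hy => cos_sub_lower x y hx hy)

lemma K_nonneg (A x : ℝ) (hA : 1 ≤ A) : 0 ≤ K A x := by
  unfold K
  positivity

lemma K_le (A x : ℝ) (hA : 1 ≤ A) : K A x ≤ A := by
  unfold K
  apply div_le_self (by linarith)
  nlinarith [mul_nonneg (sq_nonneg A) (sq_nonneg x)]

lemma measK (A : ℝ) (D : ℝ → ℝ) (hD : Measurable D) :
    Measurable (fun y => ENNReal.ofReal (K A (D y))) := by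
  unfold K
  fun_prop

end T4

open T4

theorem Q1_bound : ∃ C : ℝ, 0 < C ∧ ∀ B : ℝ, 1 ≤ B →
    ∫⁻ x in Q, ∫⁻ y in Q, ENNReal.ofReal (K B (Real.sin x - Real.sin y)) ≤
      ENNReal.ofReal (C * (1 + Real.log B)) :=
  ⟨CC, CC_pos, Q1s⟩

theorem Q2_bound : ∃ C : ℝ, 0 < C ∧ ∀ A B : ℝ, 1 ≤ A → 1 ≤ B →
    ∫⁻ x in Q, ∫⁻ y in Q, ENNReal.ofReal (K A (Real.cos x - Real.cos y) *
      K B (Real.sin x - Real.sin y)) ≤ ENNReal.ofReal (C * (min A B * (1 + Real.log (A * B)))) := by
  refine ⟨CC, CC_pos, ?_⟩
  intro A B hA hB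
  have hCC := CC_pos
  have hlA := Real.log_nonneg hA
  have hlB := Real.log_nonneg hB
  have hlog : Real.log (A * B) = Real.log A + Real.log B :=
    Real.log_mul (by positivity) (by positivity)
  have b1 : ∫⁻ x in Q, ∫⁻ y in Q, ENNReal.ofReal (K A (Real.cos x - Real.cos y) *
      K B (Real.sin x - Real.sin y)) ≤ ENNReal.ofReal (CC * (A * (1 + Real.log (A * B)))) := by
    calc ∫⁻ x in Q, ∫⁻ y in Q, ENNReal.ofReal (K A (Real.cos x - Real.cos y) *
          K B (Real.sin x - Real.sin y))
        ≤ ∫⁻ x in Q, ENNReal.ofReal A *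
            ∫⁻ y in Q, ENNReal.ofReal (K B (Real.sin x - Real.sin y)) := by
          apply lintegral_mono
          intro x
          dsimp only
          rw [← lintegral_const_mul _ (measK B _ (by fun_prop))]
          apply lintegral_mono
          intro y
          dsimp only
          rw [← ENNReal.ofReal_mul (by linarith)]
          apply ENNReal.ofReal_le_ofReal
          exact mul_le_mul_of_nonneg_right (K_le _ _ hA) (K_nonneg _ _ hB)
      _ = ENNReal.ofReal A * ∫⁻ x in Q, ∫⁻ y in Q,
            ENNReal.ofReal (K B (Real.sin x - Real.sin y)) :=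
          lintegral_const_mul' _ _ ENNReal.ofReal_ne_top
      _ ≤ ENNReal.ofReal A * ENNReal.ofReal (CC * (1 + Real.log B)) :=
          mul_le_mul_right (Q1s B hB) _
      _ ≤ ENNReal.ofReal (CC * (A * (1 + Real.log (A * B)))) := by
          rw [← ENNReal.ofReal_mul (by linarith)]
          apply ENNReal.ofReal_le_ofReal
          rw [hlog]
          have : 0 ≤ CC * A * Real.log A := by positivity
          nlinarith
  have b2 : ∫⁻ x in Q, ∫⁻ y in Q, ENNReal.ofReal (K A (Real.cos x - Real.cos y) *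
      K B (Real.sin x - Real.sin y)) ≤ ENNReal.ofReal (CC * (B * (1 + Real.log (A * B)))) := by
    calc ∫⁻ x in Q, ∫⁻ y in Q, ENNReal.ofReal (K A (Real.cos x - Real.cos y) *
          K B (Real.sin x - Real.sin y))
        ≤ ∫⁻ x in Q, ENNReal.ofReal B *
            ∫⁻ y in Q, ENNReal.ofReal (K A (Real.cos x - Real.cos y)) := by
          apply lintegral_mono
          intro x
          dsimp only
          rw [← lintegral_const_mul _ (measK A _ (by fun_prop))]
          apply lintegral_mono
          intro y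
          dsimp only
          rw [← ENNReal.ofReal_mul (by linarith)]
          apply ENNReal.ofReal_le_ofReal
          rw [mul_comm]
          exact mul_le_mul_of_nonneg_right (K_le _ _ hB) (K_nonneg _ _ hA)
      _ = ENNReal.ofReal B * ∫⁻ x in Q, ∫⁻ y in Q,
            ENNReal.ofReal (K A (Real.cos x - Real.cos y)) :=
          lintegral_const_mul' _ _ ENNReal.ofReal_ne_top
      _ ≤ ENNReal.ofReal B * ENNReal.ofReal (CC * (1 + Real.log A)) :=
          mul_le_mul_right (Q1c A hA) _
      _ ≤ ENNReal.ofReal (CC * (B * (1 + Real.log (A * B)))) := by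
          rw [← ENNReal.ofReal_mul (by linarith)]
          apply ENNReal.ofReal_le_ofReal
          rw [hlog]
          have : 0 ≤ CC * B * Real.log B := by positivity
          nlinarith
  rcases min_cases A B with ⟨h, _⟩ | ⟨h, _⟩
  · rw [h]; exact b1
  · rw [h]; exact b2

end Pool.Agent.H438R2.BR
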