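import Mathlib
import Pool.Agent.H97.L.S8.H438R2.BR.Defs
set_option autoImplicit false

/-! # T3: the L2 kernel lemma -/

namespace Pool.Agent.H438R2.BR

open MeasureTheory Set Complex
open scoped ENNReal

theorem ka_nonneg (q : ℕ) {A r : ℝ} (hA : 0 < A) (hr : 0 ≤ r) : 0 ≤ ka q A r := by
  unfold ka; positivity

theorem ka_cont (q : ℕ) (A : ℝ) : Continuous (ka q A) := by
  unfold ka; fun_prop

theorem ka_integrable (q : ℕ) {A : ℝ} (hA : 0 < A) :
    Integrable (ka q A) (volume.restrict (Ioi (0:ℝ))) := by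
  have h := integrableOn_rpow_mul_exp_neg_mul_rpow (p := 1) (s := (q:ℝ)) (b := 1 / A)
    (by have : (0:ℝ) ≤ q := Nat.cast_nonneg q
        linarith) one_pos (by positivity)
  have h2 := h.const_mul ((1 / A) ^ q)
  refine h2.congr ?_
  filter_upwards [ae_restrict_mem measurableSet_Ioi] with r hr
  have hr0 : (0:ℝ) < r := hr
  unfold ka
  rw [Real.rpow_one, Real.rpow_natCast, div_pow, div_pow, one_pow]
  have : -(1 / A) * r = -(r / A) := by ring
  rw [this]; ring

theorem pow_exp_integrable (n : ℕ) {z : ℂ} (hz : 0 < z.re) :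
    IntegrableOn (fun r : ℝ => (r : ℂ) ^ n * Complex.exp (-(z * r))) (Ioi 0) := by
  have h := integrableOn_rpow_mul_exp_neg_mul_rpow (p := 1) (s := (n:ℝ)) (b := z.re)
    (by have : (0:ℝ) ≤ n := Nat.cast_nonneg n
        linarith) one_pos hz
  refine Integrable.mono' h (by fun_prop) ?_
  filter_upwards [ae_restrict_mem measurableSet_Ioi] with r hr
  have hr0 : (0:ℝ) < r := hr
  rw [norm_mul, norm_pow, Complex.norm_real, Real.norm_of_nonneg hr0.le, Complex.norm_exp,
    Real.rpow_one, Real.rpow_natCast]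
  have : (-(z * (r:ℂ))).re = -z.re * r := by
    simp
  rw [this]

theorem pow_exp_integral (n : ℕ) {z : ℂ} (hz : 0 < z.re) :
    ∫ r in Ioi (0:ℝ), (r : ℂ) ^ n * Complex.exp (-(z * r)) = (n.factorial : ℂ) / z ^ (n + 1) := by
  have hz0 : z ≠ 0 := by
    intro h; rw [h] at hz; simp at hz
  have hE : ∀ r : ℝ, HasDerivAt (fun r : ℝ => Complex.exp (-(z * r)))
      (-z * Complex.exp (-(z * r))) r := by
    intro r
    have h1 : HasDerivAt (fun r : ℝ => -(z * (r:ℂ))) (-(z * 1)) r :=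
      ((Complex.ofRealCLM.hasDerivAt (x := r)).const_mul z).neg
    have h2 := h1.cexp
    convert h2 using 1
    ring
  have htend : ∀ m : ℕ, Filter.Tendsto (fun r : ℝ => (r : ℂ) ^ m * Complex.exp (-(z * r)))
      Filter.atTop (nhds 0) := by
    intro m
    rw [tendsto_zero_iff_norm_tendsto_zero]
    have h1 := tendsto_rpow_mul_exp_neg_mul_atTop_nhds_zero (m:ℝ) z.re hz
    refine h1.congr' ?_
    filter_upwards [Filter.eventually_gt_atTop 0] with r hr0
    rw [norm_mul, norm_pow, Complex.norm_real, Real.norm_of_nonneg hr0.le, Complex.norm_exp,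
      Real.rpow_natCast]
    have : (-(z * (r:ℂ))).re = -z.re * r := by
      simp
    rw [this]
  induction n with
  | zero =>
    have h1 := integral_Ioi_of_hasDerivAt_of_tendsto (a := (0:ℝ))
      (f := fun r : ℝ => -(1 / z) * Complex.exp (-(z * r)))
      (f' := fun r : ℝ => -(1 / z) * (-z * Complex.exp (-(z * r)))) (m := -(1 / z) * 0)
      (((hE 0).const_mul _).continuousAt.continuousWithinAt)
      (fun x _ => (hE x).const_mul _)
      (by
        have h3 := (pow_exp_integrable 0 hz).const_mul (-(1 / z) * (-z))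
        refine h3.congr (Filter.Eventually.of_forall fun r => ?_)
        simp only [pow_zero]; ring)
      (by
        have h3 := (htend 0).const_mul (-(1 / z))
        simpa using h3)
    have h2 : ∫ r in Ioi (0:ℝ), (r : ℂ) ^ 0 * Complex.exp (-(z * r)) =
        ∫ r in Ioi (0:ℝ), -(1 / z) * (-z * Complex.exp (-(z * r))) := by
      apply setIntegral_congr_fun measurableSet_Ioi
      intro r _
      simp only [pow_zero]
      field_simp
    rw [h2, h1]
    simp
  | succ n ih =>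
    have hP : ∀ r : ℝ, HasDerivAt (fun r : ℝ => (r : ℂ) ^ (n + 1)) (((n:ℂ) + 1) * (r:ℂ) ^ n) r := by
      intro r
      have h1 := (hasDerivAt_pow (n + 1) (r:ℂ)).comp_ofReal
      have h2 : (((n + 1 : ℕ) : ℂ) * (r:ℂ) ^ (n + 1 - 1)) = ((n:ℂ) + 1) * (r:ℂ) ^ n := by
        rw [Nat.add_sub_cancel]; push_cast; ring
      rw [h2] at h1
      exact h1
    have h1 := integral_Ioi_of_hasDerivAt_of_tendsto (a := (0:ℝ))
      (f := fun r : ℝ => -(1 / z) * ((r : ℂ) ^ (n + 1) * Complex.exp (-(z * r))))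
      (f' := fun r : ℝ => -(1 / z) * ((((n:ℂ) + 1) * (r:ℂ) ^ n) * Complex.exp (-(z * r)) +
        (r : ℂ) ^ (n + 1) * (-z * Complex.exp (-(z * r))))) (m := -(1 / z) * 0)
      ((((hP 0).mul (hE 0)).const_mul _).continuousAt.continuousWithinAt)
      (fun x _ => ((hP x).mul (hE x)).const_mul _)
      (by
        have h3 := ((pow_exp_integrable n hz).const_mul (-(1 / z) * ((n:ℂ) + 1))).add
          ((pow_exp_integrable (n + 1) hz).const_mul (-(1 / z) * (-z)))
        refine h3.congr (Filter.Eventually.of_forall fun r => ?_)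
        simp only [Pi.add_apply]; ring)
      ((htend (n + 1)).const_mul (-(1 / z)))
    have h2 : ∫ r in Ioi (0:ℝ), -(1 / z) * ((((n:ℂ) + 1) * (r:ℂ) ^ n) * Complex.exp (-(z * r)) +
        (r : ℂ) ^ (n + 1) * (-z * Complex.exp (-(z * r)))) =
        (-(1 / z) * ((n:ℂ) + 1)) * (∫ r in Ioi (0:ℝ), (r : ℂ) ^ n * Complex.exp (-(z * r))) +
        ∫ r in Ioi (0:ℝ), (r : ℂ) ^ (n + 1) * Complex.exp (-(z * r)) := by
      rw [← integral_const_mul, ← integral_add ((pow_exp_integrable n hz).const_mul _)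
        (pow_exp_integrable (n + 1) hz)]
      apply setIntegral_congr_fun measurableSet_Ioi
      intro r _
      simp only
      field_simp
      ring
    rw [h2, ih] at h1
    have h4 : ∫ r in Ioi (0:ℝ), (r : ℂ) ^ (n + 1) * Complex.exp (-(z * r)) =
        (1 / z) * ((n:ℂ) + 1) * ((n.factorial : ℂ) / z ^ (n + 1)) := by
      have h5 : -(1 / z) * 0 - -(1 / z) * (((0:ℝ) : ℂ) ^ (n + 1) *
          Complex.exp (-(z * ((0:ℝ):ℂ)))) = 0 := by
        simp
      rw [h5] at h1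
      linear_combination h1
    rw [h4, Nat.factorial_succ]
    push_cast
    field_simp
    ring

/-- one-dimensional Laplace transform -/
theorem ka_laplace (q : ℕ) {A : ℝ} (hA : 0 < A) (c : ℂ) (hc : 0 ≤ c.re) :
    ∫ r in Ioi (0:ℝ), ((ka q A r : ℝ) : ℂ) * Complex.exp (-((r:ℂ) * c)) =
      (q.factorial : ℂ) * ((A : ℂ) / (1 + (A:ℂ) * c) ^ (q+1)) := by
  have hA' : (A:ℂ) ≠ 0 := by exact_mod_cast hA.ne'
  have hre : 0 < ((1:ℂ)/A + c).re := by
    rw [Complex.add_re]
    have : ((1:ℂ)/A).re = 1/A := by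
      rw [← Complex.ofReal_one, ← Complex.ofReal_div, Complex.ofReal_re]
    rw [this]; positivity
  have hne : (1:ℂ) + A * c ≠ 0 := by
    intro h
    have h1 : (1:ℂ)/A + c = 0 := by
      field_simp; linear_combination h
    rw [h1] at hre; simp at hre
  have key := pow_exp_integral q hre
  have h1 : ∫ r in Ioi (0:ℝ), ((ka q A r : ℝ) : ℂ) * Complex.exp (-((r:ℂ) * c)) =
      ∫ r in Ioi (0:ℝ), ((1:ℂ) / A) ^ q *
        ((r:ℂ) ^ q * Complex.exp (-((1 / (A:ℂ) + c) * r))) := by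
    apply setIntegral_congr_fun measurableSet_Ioi
    intro r _
    simp only
    unfold ka
    push_cast
    rw [mul_assoc, ← Complex.exp_add]
    have : -((r:ℂ) / A) + -((r:ℂ) * c) = -((1 / (A:ℂ) + c) * r) := by ring
    rw [this]; ring
  rw [h1, integral_const_mul, key]
  have h3 : (1:ℂ) / A + c = (1 + A * c) / A := by
    field_simp
  rw [h3, div_pow, div_pow, one_pow, pow_succ (A:ℂ) q]
  field_simp

/-! ## the kernel lemma -/

theorem kernel2 {X : Type*} [MeasurableSpace X] (μ : Measure X) [IsFiniteMeasure μ]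
    (h z1 z2 : X → ℂ) (hh : Measurable h) (hz1 : Measurable z1) (hz2 : Measurable z2)
    (M : ℝ) (hM : ∀ x, ‖h x‖ ≤ M) (h1 : ∀ x, 0 ≤ (z1 x).re) (h2 : ∀ x, 0 ≤ (z2 x).re)
    (q : ℕ) (A B : ℝ) (hA : 0 < A) (hB : 0 < B) :
    ∫⁻ r in Ioi (0 : ℝ), ∫⁻ t in Ioi (0 : ℝ), ENNReal.ofReal (ka q A r * ka q B t *
        ‖∫ x, h x * Complex.exp (-((r : ℂ) * z1 x) - (t : ℂ) * z2 x) ∂μ‖ ^ 2) ≤
      ENNReal.ofReal ((q.factorial : ℝ) ^ 2) * ∫⁻ x, ∫⁻ x', ENNReal.ofReal (‖h x‖ * ‖h x'‖ *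
        (A / ‖1 + (A : ℂ) * (z1 x + (starRingEnd ℂ) (z1 x'))‖ ^ (q + 1)) *
        (B / ‖1 + (B : ℂ) * (z2 x + (starRingEnd ℂ) (z2 x'))‖ ^ (q + 1))) ∂μ ∂μ := by
  set ν1 : Measure ℝ := volume.restrict (Ioi (0:ℝ)) with hν1
  set ν : Measure (ℝ × ℝ) := ν1.prod ν1 with hν
  set e : ℝ × ℝ → X → ℂ := fun p x =>
    h x * Complex.exp (-((p.1 : ℂ) * z1 x) - (p.2 : ℂ) * z2 x) with he
  have hem : Measurable (fun y : (ℝ × ℝ) × X => e y.1 y.2) := by
    rw [he]; fun_prop
  set T : ℝ × ℝ → ℂ := fun p => ∫ x, e p x ∂μ with hT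
  have hTm : Measurable T := by
    have := (show StronglyMeasurable (Function.uncurry e) from
      hem.stronglyMeasurable).integral_prod_right (ν := μ)
    exact this.measurable
  set g : ℝ × ℝ → ℝ := fun p => ka q A p.1 * ka q B p.2 * ‖T p‖ ^ 2 with hg
  have hgm : Measurable g := by
    rw [hg]
    have a1 := (ka_cont q A).measurable
    have a2 := (ka_cont q B).measurable
    fun_prop
  have hae : ∀ᵐ p ∂ν, 0 < p.1 ∧ 0 < p.2 := by
    rw [hν, hν1, Measure.prod_restrict]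
    filter_upwards [ae_restrict_mem (measurableSet_Ioi.prod measurableSet_Ioi)] with p hp
    exact hp
  have hle : ∀ p : ℝ × ℝ, 0 < p.1 → 0 < p.2 → ∀ x, ‖e p x‖ ≤ M := by
    intro p hp1 hp2 x
    rw [he]
    simp only
    rw [norm_mul, Complex.norm_exp]
    have h3 : (-((p.1 : ℂ) * z1 x) - (p.2 : ℂ) * z2 x).re ≤ 0 := by
      simp only [Complex.sub_re, Complex.neg_re, Complex.mul_re, Complex.ofReal_re,
        Complex.ofReal_im, zero_mul, sub_zero]
      have := mul_nonneg hp1.le (h1 x)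
      have := mul_nonneg hp2.le (h2 x)
      linarith
    calc ‖h x‖ * Real.exp _ ≤ ‖h x‖ * 1 :=
          mul_le_mul_of_nonneg_left (Real.exp_le_one_iff.mpr h3) (norm_nonneg _)
      _ ≤ M := by rw [mul_one]; exact hM x
  have hkk : Integrable (fun p : ℝ × ℝ => ka q A p.1 * ka q B p.2) ν :=
    (ka_integrable q hA).mul_prod (ka_integrable q hB)
  -- the big integrand
  set Ψ : ℝ × ℝ → X × X → ℂ := fun p x =>
    ((ka q A p.1 : ℝ) : ℂ) * ((ka q B p.2 : ℝ) : ℂ) * (e p x.1 * (starRingEnd ℂ) (e p x.2)) with hΨ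
  have hΨm : Measurable (Function.uncurry Ψ) := by
    have a1 := (ka_cont q A).measurable
    have a2 := (ka_cont q B).measurable
    have a3 : Measurable (fun y : (ℝ × ℝ) × (X × X) => e y.1 y.2.1) :=
      hem.comp (measurable_fst.prodMk (measurable_fst.comp measurable_snd))
    have a4 : Measurable (fun y : (ℝ × ℝ) × (X × X) => e y.1 y.2.2) :=
      hem.comp (measurable_fst.prodMk (measurable_snd.comp measurable_snd))
    have a5 : Measurable (fun y : (ℝ × ℝ) × (X × X) => (starRingEnd ℂ) (e y.1 y.2.2)) :=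
      (continuous_star (R := ℂ)).measurable.comp a4
    have a6 : Measurable (fun y : (ℝ × ℝ) × (X × X) => ((ka q A y.1.1 : ℝ) : ℂ)) :=
      Complex.measurable_ofReal.comp (a1.comp (measurable_fst.comp measurable_fst))
    have a7 : Measurable (fun y : (ℝ × ℝ) × (X × X) => ((ka q B y.1.2 : ℝ) : ℂ)) :=
      Complex.measurable_ofReal.comp (a2.comp (measurable_snd.comp measurable_fst))
    exact (a6.mul a7).mul (a3.mul a5)
  have hΨi : Integrable (Function.uncurry Ψ) (ν.prod (μ.prod μ)) := by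
    have hdom : Integrable (fun y : (ℝ × ℝ) × (X × X) =>
        (M ^ 2 * (ka q A y.1.1 * ka q B y.1.2))) (ν.prod (μ.prod μ)) :=
      (hkk.const_mul (M ^ 2)).comp_fst (μ.prod μ)
    refine hdom.mono' hΨm.aestronglyMeasurable ?_
    have := (Measure.quasiMeasurePreserving_fst (μ := ν) (ν := μ.prod μ)).ae hae
    filter_upwards [this] with y hy
    simp only [Function.uncurry, hΨ]
    rw [norm_mul, norm_mul, norm_mul, RCLike.norm_conj, Complex.norm_real, Complex.norm_real,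
      Real.norm_of_nonneg (ka_nonneg q hA hy.1.le), Real.norm_of_nonneg (ka_nonneg q hB hy.2.le)]
    have b1 := hle y.1 hy.1 hy.2 y.2.1
    have b2 := hle y.1 hy.1 hy.2 y.2.2
    have b3 : 0 ≤ ka q A y.1.1 * ka q B y.1.2 :=
      mul_nonneg (ka_nonneg q hA hy.1.le) (ka_nonneg q hB hy.2.le)
    have b4 : ‖e y.1 y.2.1‖ * ‖e y.1 y.2.2‖ ≤ M ^ 2 := by
      rw [sq]
      exact mul_le_mul b1 b2 (norm_nonneg _) ((norm_nonneg _).trans b1)
    calc _ ≤ (ka q A y.1.1 * ka q B y.1.2) * M ^ 2 := mul_le_mul_of_nonneg_left b4 b3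
      _ = _ := by ring
  -- the inner integral in (x, x')
  have hin : ∀ p : ℝ × ℝ, ∫ x, Ψ p x ∂(μ.prod μ) = ((g p : ℝ) : ℂ) := by
    intro p
    rw [hΨ]
    simp only
    rw [integral_const_mul, integral_prod_mul (f := fun x => e p x)
      (g := fun x => (starRingEnd ℂ) (e p x)), integral_conj, Complex.mul_conj, hg]
    simp only
    rw [Complex.normSq_eq_norm_sq]
    push_cast
    rfl
  have hgi : Integrable g ν := by
    have h3 := hΨi.integral_prod_left
    have h4 : Integrable (fun p => ((g p : ℝ) : ℂ)) ν := by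
      refine h3.congr (Filter.Eventually.of_forall fun p => ?_)
      exact hin p
    have h5 := h4.re
    simpa using h5
  have hg0 : 0 ≤ᵐ[ν] g := by
    filter_upwards [hae] with p hp
    rw [hg]
    exact mul_nonneg (mul_nonneg (ka_nonneg q hA hp.1.le) (ka_nonneg q hB hp.2.le)) (sq_nonneg _)
  -- the inner integral in (r, t)
  set c1 : X × X → ℂ := fun x => z1 x.1 + (starRingEnd ℂ) (z1 x.2) with hc1
  set c2 : X × X → ℂ := fun x => z2 x.1 + (starRingEnd ℂ) (z2 x.2) with hc2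
  set H : X × X → ℂ := fun x => h x.1 * (starRingEnd ℂ) (h x.2) *
    (((q.factorial : ℂ) * ((A : ℂ) / (1 + (A:ℂ) * c1 x) ^ (q+1))) *
      ((q.factorial : ℂ) * ((B : ℂ) / (1 + (B:ℂ) * c2 x) ^ (q+1)))) with hH
  have hin2 : ∀ x : X × X, ∫ p, Ψ p x ∂ν = H x := by
    intro x
    have e1 : ∀ p : ℝ × ℝ, Ψ p x = h x.1 * (starRingEnd ℂ) (h x.2) *
        ((((ka q A p.1 : ℝ) : ℂ) * Complex.exp (-((p.1:ℂ) * c1 x))) *
        (((ka q B p.2 : ℝ) : ℂ) * Complex.exp (-((p.2:ℂ) * c2 x)))) := by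
      intro p
      simp only [hΨ, he, hc1, hc2, map_mul, ← Complex.exp_conj, map_sub, map_neg,
        Complex.conj_ofReal]
      have e2 : Complex.exp (-((p.1:ℂ) * (z1 x.1 + (starRingEnd ℂ) (z1 x.2)))) *
          Complex.exp (-((p.2:ℂ) * (z2 x.1 + (starRingEnd ℂ) (z2 x.2)))) =
          Complex.exp (-((p.1:ℂ) * z1 x.1) - (p.2:ℂ) * z2 x.1) *
          Complex.exp (-((p.1:ℂ) * (starRingEnd ℂ) (z1 x.2)) -
            (p.2:ℂ) * (starRingEnd ℂ) (z2 x.2)) := by
        rw [← Complex.exp_add, ← Complex.exp_add]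
        congr 1; ring
      linear_combination (-(((ka q A p.1 : ℝ) : ℂ) * ((ka q B p.2 : ℝ) : ℂ) *
        h x.1 * (starRingEnd ℂ) (h x.2))) * e2
    simp_rw [e1]
    rw [integral_const_mul, integral_prod_mul
      (f := fun r : ℝ => ((ka q A r : ℝ) : ℂ) * Complex.exp (-((r:ℂ) * c1 x)))
      (g := fun r : ℝ => ((ka q B r : ℝ) : ℂ) * Complex.exp (-((r:ℂ) * c2 x)))]
    have r1 : 0 ≤ (c1 x).re := by
      simp only [hc1, Complex.add_re, Complex.conj_re]
      have := h1 x.1; have := h1 x.2; linarith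
    have r2 : 0 ≤ (c2 x).re := by
      simp only [hc2, Complex.add_re, Complex.conj_re]
      have := h2 x.1; have := h2 x.2; linarith
    rw [ka_laplace q hA _ r1, ka_laplace q hB _ r2]
  -- Fubini
  have hswap : ((∫ p, g p ∂ν : ℝ) : ℂ) = ∫ x, H x ∂(μ.prod μ) := by
    rw [← integral_complex_ofReal]
    calc ∫ p, ((g p : ℝ) : ℂ) ∂ν = ∫ p, ∫ x, Ψ p x ∂(μ.prod μ) ∂ν := by
          apply integral_congr_ae
          exact Filter.Eventually.of_forall fun p => (hin p).symm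
      _ = ∫ x, ∫ p, Ψ p x ∂ν ∂(μ.prod μ) := integral_integral_swap hΨi
      _ = ∫ x, H x ∂(μ.prod μ) := by
          apply integral_congr_ae
          exact Filter.Eventually.of_forall fun x => hin2 x
  -- conclusion
  have hLHS : ∫⁻ r in Ioi (0 : ℝ), ∫⁻ t in Ioi (0 : ℝ), ENNReal.ofReal (ka q A r * ka q B t *
        ‖∫ x, h x * Complex.exp (-((r : ℂ) * z1 x) - (t : ℂ) * z2 x) ∂μ‖ ^ 2) =
        ENNReal.ofReal (∫ p, g p ∂ν) := by
    rw [ofReal_integral_eq_lintegral_ofReal hgi hg0, hν,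
      lintegral_prod _ (by exact (ENNReal.measurable_ofReal.comp hgm).aemeasurable)]
  rw [hLHS]
  have hHn : ∀ x : X × X, ‖H x‖ₑ = ENNReal.ofReal ((q.factorial : ℝ) ^ 2) *
      ENNReal.ofReal (‖h x.1‖ * ‖h x.2‖ *
        (A / ‖1 + (A : ℂ) * (z1 x.1 + (starRingEnd ℂ) (z1 x.2))‖ ^ (q + 1)) *
        (B / ‖1 + (B : ℂ) * (z2 x.1 + (starRingEnd ℂ) (z2 x.2))‖ ^ (q + 1))) := by
    intro x
    rw [← ENNReal.ofReal_mul (by positivity), ← ofReal_norm_eq_enorm]
    congr 1
    simp only [hH, hc1, hc2]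
    rw [norm_mul, norm_mul, norm_mul, norm_mul, norm_mul, norm_div, norm_div, norm_pow, norm_pow,
      RCLike.norm_conj, Complex.norm_real, Complex.norm_real, Real.norm_of_nonneg hA.le,
      Real.norm_of_nonneg hB.le, Complex.norm_natCast]
    ring
  calc ENNReal.ofReal (∫ p, g p ∂ν) = ‖((∫ p, g p ∂ν : ℝ) : ℂ)‖ₑ := by
        rw [← ofReal_norm_eq_enorm, Complex.norm_real,
          Real.norm_of_nonneg (integral_nonneg_of_ae hg0)]
    _ = ‖∫ x, H x ∂(μ.prod μ)‖ₑ := by rw [hswap]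
    _ ≤ ∫⁻ x, ‖H x‖ₑ ∂(μ.prod μ) := enorm_integral_le_lintegral_enorm _
    _ = ∫⁻ x, ENNReal.ofReal ((q.factorial : ℝ) ^ 2) *
      ENNReal.ofReal (‖h x.1‖ * ‖h x.2‖ *
        (A / ‖1 + (A : ℂ) * (z1 x.1 + (starRingEnd ℂ) (z1 x.2))‖ ^ (q + 1)) *
        (B / ‖1 + (B : ℂ) * (z2 x.1 + (starRingEnd ℂ) (z2 x.2))‖ ^ (q + 1))) ∂(μ.prod μ) :=
        lintegral_congr hHn
    _ = _ := by
        have hstar : Measurable (starRingEnd ℂ : ℂ → ℂ) := (continuous_star (R := ℂ)).measurable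
        rw [lintegral_const_mul _ (by fun_prop)]
        congr 1
        rw [lintegral_prod _ (by fun_prop)]

end Pool.Agent.H438R2.BR
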