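import Mathlib
import Pool.Agent.H97.L.S8.H438R2.BR.Defs
import Pool.Agent.H97.L.S8.H438R2.BR.T2
import Pool.Agent.H97.L.Tf0cf7b00.H438R2.BR.T3
set_option autoImplicit false

/-! The kernel lemma for the oscillatory integrals `ff`. -/

namespace Pool.Agent.H438R2.BR

open MeasureTheory Set Complex
open scoped ENNReal

/-- the oscillatory piece of `F` -/
noncomputable def ff (k m : ℕ) (G : ℝ → ℂ) (a b y z r t : ℝ) : ℂ :=
  ∫ θ in Q, (G θ * (((Real.cos θ) ^ (k - 1) * (Real.sin θ) ^ (m - 1) : ℝ) : ℂ)) *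
    Complex.exp (-((r : ℂ) * (((Real.cos θ : ℝ) : ℂ) * ((y : ℂ) - a * I))) -
      (t : ℂ) * (((Real.sin θ : ℝ) : ℂ) * ((z : ℂ) - b * I)))

/-- the weight lemma -/
theorem wl (k N : ℕ) (hN : k - 1 ≤ N) {A y c R : ℝ} (hA : 0 < A) (hy : 0 < y) (hc : 0 ≤ c)
    (hc1 : c ≤ 1) (hR : 1 + A * y * c ≤ R) : c ^ (k - 1) ≤ w k A y * R ^ N := by
  have hAy : 0 < A * y := by positivity
  have hR1 : 1 ≤ R := by nlinarith [mul_nonneg hAy.le hc]
  have h1 : c ≤ min 1 (1 / (A * y)) * R := by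
    rcases le_total 1 (1 / (A * y)) with h | h
    · rw [min_eq_left h]; linarith
    · rw [min_eq_right h]
      rw [div_mul_eq_mul_div, one_mul, le_div_iff₀ hAy]
      linarith
  calc c ^ (k - 1) ≤ (min 1 (1 / (A * y)) * R) ^ (k - 1) := by gcongr
    _ = w k A y * R ^ (k - 1) := by rw [mul_pow, w]
    _ ≤ w k A y * R ^ N := by
        apply mul_le_mul_of_nonneg_left _ (T2.w_nonneg k hA hy)
        exact pow_le_pow_right₀ hR1 hN

/-- lower bound for the Laplace kernel -/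
theorem norm_low (N : ℕ) {A y a a' e : ℝ} (hA : 0 < A) (hy : 0 ≤ y) (ha : 0 ≤ a) (ha' : 0 ≤ a')
    (he : e ^ 2 = 1) :
    (1 + A * y * (a + a')) ^ (4 * N) * (1 + A ^ 2 * (a - a') ^ 2) ≤
      ‖1 + (A : ℂ) * ((a : ℂ) * ((y : ℂ) - e * I) +
        (starRingEnd ℂ) ((a' : ℂ) * ((y : ℂ) - e * I)))‖ ^ (4 * N + 1 + 1) := by
  have h0 : 1 + (A : ℂ) * ((a : ℂ) * ((y : ℂ) - e * I) +
        (starRingEnd ℂ) ((a' : ℂ) * ((y : ℂ) - e * I))) =
      (((1 + A * y * (a + a') : ℝ)) : ℂ) + ((-(e * A * (a - a')) : ℝ) : ℂ) * I := by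
    simp only [map_mul, map_sub, Complex.conj_ofReal, Complex.conj_I]
    push_cast
    ring
  have h1 : ‖1 + (A : ℂ) * ((a : ℂ) * ((y : ℂ) - e * I) +
        (starRingEnd ℂ) ((a' : ℂ) * ((y : ℂ) - e * I)))‖ ^ 2 =
      (1 + A * y * (a + a')) ^ 2 + A ^ 2 * (a - a') ^ 2 := by
    rw [h0, ← Complex.normSq_eq_norm_sq, Complex.normSq_add_mul_I]
    have : (-(e * A * (a - a'))) ^ 2 = e ^ 2 * (A ^ 2 * (a - a') ^ 2) := by ring
    rw [this, he, one_mul]
  have hR : 1 ≤ 1 + A * y * (a + a') := by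
    have : 0 ≤ A * y * (a + a') := by positivity
    linarith
  have h2 : 4 * N + 1 + 1 = 2 * (2 * N + 1) := by ring
  rw [h2, pow_mul _ 2 (2 * N + 1), h1, pow_succ]
  have h3 : (1 + A * y * (a + a')) ^ (4 * N) = ((1 + A * y * (a + a')) ^ 2) ^ (2 * N) := by
    rw [← pow_mul]; congr 1; ring
  rw [h3]
  have h4 : 0 ≤ A ^ 2 * (a - a') ^ 2 := by positivity
  apply mul_le_mul
  · apply pow_le_pow_left₀ (by positivity)
    linarith
  · nlinarith
  · linarith
  · exact pow_nonneg (add_nonneg (sq_nonneg _) h4) _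

theorem gk {X : Type*} [MeasurableSpace X] (μ : Measure X) [IsFiniteMeasure μ]
    (h : X → ℂ) (a b : X → ℝ) (hh : Measurable h) (ham : Measurable a) (hbm : Measurable b)
    (M : ℝ) (hM : ∀ x, ‖h x‖ ≤ M) (ha : ∀ x, 0 ≤ a x) (hb : ∀ x, 0 ≤ b x)
    (N : ℕ) (A B : ℝ) (hA : 0 < A) (hB : 0 < B) (y z e1 e2 : ℝ) (hy : 0 ≤ y) (hz : 0 ≤ z)
    (he1 : e1 ^ 2 = 1) (he2 : e2 ^ 2 = 1) :
    ∫⁻ r in Ioi (0 : ℝ), ∫⁻ t in Ioi (0 : ℝ), ENNReal.ofReal (ka (4 * N + 1) A r *
        ka (4 * N + 1) B t * ‖∫ x, h x * Complex.exp (-((r : ℂ) * ((a x : ℂ) *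
          ((y : ℂ) - e1 * I))) - (t : ℂ) * ((b x : ℂ) * ((z : ℂ) - e2 * I))) ∂μ‖ ^ 2) ≤
      ENNReal.ofReal (((4 * N + 1).factorial : ℝ) ^ 2) * ∫⁻ x, ∫⁻ x',
        ENNReal.ofReal (‖h x‖ * ‖h x'‖ / ((1 + A * y * (a x + a x')) ^ (4 * N) *
          (1 + B * z * (b x + b x')) ^ (4 * N)) *
          (K A (a x - a x') * K B (b x - b x'))) ∂μ ∂μ := by
  refine (kernel2 μ h (fun x => (a x : ℂ) * ((y : ℂ) - e1 * I))
    (fun x => (b x : ℂ) * ((z : ℂ) - e2 * I)) hh (by fun_prop) (by fun_prop) M hM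
    ?_ ?_ (4 * N + 1) A B hA hB).trans ?_
  · intro x
    simp only [Complex.mul_re, Complex.sub_re, Complex.ofReal_re, Complex.I_re, mul_zero,
      Complex.ofReal_im, Complex.I_im, mul_one, sub_self, sub_zero, zero_mul, Complex.sub_im]
    have := mul_nonneg (ha x) hy
    linarith
  · intro x
    simp only [Complex.mul_re, Complex.sub_re, Complex.ofReal_re, Complex.I_re, mul_zero,
      Complex.ofReal_im, Complex.I_im, mul_one, sub_self, sub_zero, zero_mul, Complex.sub_im]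
    have := mul_nonneg (hb x) hz
    linarith
  · apply mul_le_mul_right
    apply lintegral_mono
    intro x
    apply lintegral_mono
    intro x'
    apply ENNReal.ofReal_le_ofReal
    have e1' := norm_low N hA hy (ha x) (ha x') he1
    have e2' := norm_low N hB hz (hb x) (hb x') he2
    have p1 : 0 < (1 + A * y * (a x + a x')) ^ (4 * N) * (1 + A ^ 2 * (a x - a x') ^ 2) := by
      have := ha x
      have := ha x'
      positivity
    have p2 : 0 < (1 + B * z * (b x + b x')) ^ (4 * N) * (1 + B ^ 2 * (b x - b x') ^ 2) := by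
      have := hb x
      have := hb x'
      positivity
    have q1 := div_le_div_of_nonneg_left hA.le p1 e1'
    have q2 := div_le_div_of_nonneg_left hB.le p2 e2'
    calc _ ≤ ‖h x‖ * ‖h x'‖ *
          (A / ((1 + A * y * (a x + a x')) ^ (4 * N) * (1 + A ^ 2 * (a x - a x') ^ 2))) *
          (B / ((1 + B * z * (b x + b x')) ^ (4 * N) * (1 + B ^ 2 * (b x - b x') ^ 2))) := by
          gcongr
      _ = _ := by
          unfold K
          have := ha x
          have := ha x'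
          have := hb x
          have := hb x'
          have n1 : (1 + A * y * (a x + a x')) ^ (4 * N) ≠ 0 := by positivity
          have n2 : (1 + B * z * (b x + b x')) ^ (4 * N) ≠ 0 := by positivity
          have n3 : 1 + A ^ 2 * (a x - a x') ^ 2 ≠ 0 := by positivity
          have n4 : 1 + B ^ 2 * (b x - b x') ^ 2 ≠ 0 := by positivity
          field_simp

/-- the amplitude with absolute values -/
noncomputable def h0 (k m : ℕ) (G : ℝ → ℂ) (θ : ℝ) : ℂ :=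
  G θ * ((|Real.cos θ| ^ (k - 1) * |Real.sin θ| ^ (m - 1) : ℝ) : ℂ)

theorem h0_meas (k m : ℕ) (G : ℝ → ℂ) (hG : Measurable G) : Measurable (h0 k m G) := by
  unfold h0
  fun_prop

theorem h0_norm (k m : ℕ) (G : ℝ → ℂ) (θ : ℝ) :
    ‖h0 k m G θ‖ = ‖G θ‖ * (|Real.cos θ| ^ (k - 1) * |Real.sin θ| ^ (m - 1)) := by
  unfold h0
  rw [norm_mul, Complex.norm_real, Real.norm_eq_abs, abs_of_nonneg (by positivity)]

theorem h0_le (k m : ℕ) (G : ℝ → ℂ) (M : ℝ) (hM : ∀ θ, ‖G θ‖ ≤ M) (θ : ℝ) :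
    ‖h0 k m G θ‖ ≤ M := by
  rw [h0_norm]
  have h1 : |Real.cos θ| ^ (k - 1) ≤ 1 := pow_le_one₀ (abs_nonneg _) (Real.abs_cos_le_one θ)
  have h2 : |Real.sin θ| ^ (m - 1) ≤ 1 := pow_le_one₀ (abs_nonneg _) (Real.abs_sin_le_one θ)
  have h3 : |Real.cos θ| ^ (k - 1) * |Real.sin θ| ^ (m - 1) ≤ 1 :=
    mul_le_one₀ h1 (by positivity) h2
  calc _ ≤ M * 1 := by
        apply mul_le_mul (hM θ) h3 (by positivity) ((norm_nonneg _).trans (hM θ))
    _ = M := mul_one M

theorem h0_w (k m N : ℕ) (hk : k - 1 ≤ N) (hm : m - 1 ≤ N) (G : ℝ → ℂ) (M : ℝ)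
    (hM : ∀ θ, ‖G θ‖ ≤ M) {A B y z : ℝ} (hA : 0 < A) (hB : 0 < B) (hy : 0 < y) (hz : 0 < z)
    (θ R R' : ℝ) (hR : 1 + A * y * |Real.cos θ| ≤ R) (hR' : 1 + B * z * |Real.sin θ| ≤ R') :
    ‖h0 k m G θ‖ ≤ M * (w k A y * w m B z) * (R ^ N * R' ^ N) := by
  have hM0 : 0 ≤ M := (norm_nonneg _).trans (hM 0)
  rw [h0_norm]
  have h1 := wl k N hk hA hy (abs_nonneg _) (Real.abs_cos_le_one θ) hR
  have h2 := wl m N hm hB hz (abs_nonneg _) (Real.abs_sin_le_one θ) hR'
  calc _ ≤ M * ((w k A y * R ^ N) * (w m B z * R' ^ N)) := by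
        apply mul_le_mul (hM θ) _ (by positivity) hM0
        apply mul_le_mul h1 h2 (by positivity)
        exact (pow_nonneg (abs_nonneg _) _).trans h1
    _ = _ := by ring

theorem ff_abs (k m : ℕ) (G : ℝ → ℂ) (a b y z r t : ℝ) : ff k m G a b y z r t =
    ∫ θ in Q, h0 k m G θ * Complex.exp (-((r : ℂ) * (((|Real.cos θ| : ℝ) : ℂ) *
      ((y : ℂ) - a * I))) - (t : ℂ) * (((|Real.sin θ| : ℝ) : ℂ) * ((z : ℂ) - b * I))) := by
  unfold ff h0
  apply setIntegral_congr_fun measurableSet_Ioo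
  intro θ hθ
  have h1 : 0 < Real.cos θ := Real.cos_pos_of_mem_Ioo ⟨by linarith [hθ.1, Real.pi_pos], hθ.2⟩
  have h2 : 0 < Real.sin θ := Real.sin_pos_of_pos_of_lt_pi hθ.1 (by linarith [hθ.2, Real.pi_pos])
  simp only [abs_of_pos h1, abs_of_pos h2]

theorem Q_cos {θ : ℝ} (hθ : θ ∈ Q) : 0 < Real.cos θ :=
  Real.cos_pos_of_mem_Ioo ⟨by linarith [hθ.1, Real.pi_pos], hθ.2⟩

theorem Q_sin {θ : ℝ} (hθ : θ ∈ Q) : 0 < Real.sin θ :=
  Real.sin_pos_of_pos_of_lt_pi hθ.1 (by linarith [hθ.2, Real.pi_pos])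

theorem K_nn {A x : ℝ} (hA : 0 < A) : 0 ≤ K A x := by
  unfold K
  positivity

instance Q_fin : IsFiniteMeasure (volume.restrict Q) := by
  unfold Q; infer_instance

theorem ker1 (k m : ℕ) (G : ℝ → ℂ) (hG : Measurable G) (M : ℝ) (hM : ∀ θ, ‖G θ‖ ≤ M)
    (A B : ℝ) (hA : 0 < A) (hB : 0 < B) (y z e1 e2 : ℝ) (hy : 0 < y) (hz : 0 < z)
    (he1 : e1 ^ 2 = 1) (he2 : e2 ^ 2 = 1) :
    ∫⁻ r in Ioi (0 : ℝ), ∫⁻ t in Ioi (0 : ℝ), ENNReal.ofReal (ka (4 * (k + m) + 1) A r *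
        ka (4 * (k + m) + 1) B t * ‖ff k m G e1 e2 y z r t‖ ^ 2) ≤
      ENNReal.ofReal (((4 * (k + m) + 1).factorial : ℝ) ^ 2 * (M ^ 2 *
        (w k A y * w m B z) ^ 2)) * ∫⁻ x in Q, ∫⁻ x' in Q,
        ENNReal.ofReal (K A (Real.cos x - Real.cos x') * K B (Real.sin x - Real.sin x')) := by
  have hM0 : 0 ≤ M := (norm_nonneg _).trans (hM 0)
  have hw1 := T2.w_nonneg k hA hy
  have hw2 := T2.w_nonneg m hB hz
  simp_rw [ff_abs]
  refine (gk (volume.restrict Q) (h0 k m G) (fun θ => |Real.cos θ|) (fun θ => |Real.sin θ|)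
    (h0_meas k m G hG) (by fun_prop) (by fun_prop) M (h0_le k m G M hM) (fun _ => abs_nonneg _)
    (fun _ => abs_nonneg _) (k + m) A B hA hB y z e1 e2 hy.le hz.le he1 he2).trans ?_
  rw [ENNReal.ofReal_mul (by positivity), mul_assoc]
  apply mul_le_mul_right
  rw [← lintegral_const_mul' _ _ ENNReal.ofReal_ne_top]
  apply setLIntegral_mono' measurableSet_Ioo
  intro x hx
  rw [← lintegral_const_mul' _ _ ENNReal.ofReal_ne_top]
  apply setLIntegral_mono' measurableSet_Ioo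
  intro x' hx'
  rw [← ENNReal.ofReal_mul (by positivity)]
  apply ENNReal.ofReal_le_ofReal
  have c1 := Q_cos hx
  have c2 := Q_cos hx'
  have s1 := Q_sin hx
  have s2 := Q_sin hx'
  simp only [abs_of_pos c1, abs_of_pos c2, abs_of_pos s1, abs_of_pos s2]
  apply mul_le_mul_of_nonneg_right _ (mul_nonneg (K_nn hA) (K_nn hB))
  have hAy : 0 < A * y := by positivity
  have hBz : 0 < B * z := by positivity
  have p1 := mul_pos hAy c1
  have p2 := mul_pos hAy c2
  have p3 := mul_pos hBz s1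
  have p4 := mul_pos hBz s2
  have i1 := h0_w k m (k + m) (by omega) (by omega) G M hM hA hB hy hz x
    (1 + A * y * (Real.cos x + Real.cos x')) (1 + B * z * (Real.sin x + Real.sin x'))
    (by rw [abs_of_pos c1]; linarith) (by rw [abs_of_pos s1]; linarith)
  have i2 := h0_w k m (k + m) (by omega) (by omega) G M hM hA hB hy hz x'
    (1 + A * y * (Real.cos x + Real.cos x')) (1 + B * z * (Real.sin x + Real.sin x'))
    (by rw [abs_of_pos c2]; linarith) (by rw [abs_of_pos s2]; linarith)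
  have hR : 1 ≤ 1 + A * y * (Real.cos x + Real.cos x') := by linarith
  have hR' : 1 ≤ 1 + B * z * (Real.sin x + Real.sin x') := by linarith
  set R := 1 + A * y * (Real.cos x + Real.cos x')
  set R' := 1 + B * z * (Real.sin x + Real.sin x')
  have hR0 : 0 < R := by linarith
  have hR0' : 0 < R' := by linarith
  rw [div_le_iff₀ (by positivity)]
  calc _ ≤ (M * (w k A y * w m B z) * (R ^ (k + m) * R' ^ (k + m))) *
        (M * (w k A y * w m B z) * (R ^ (k + m) * R' ^ (k + m))) := by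
        apply mul_le_mul i1 i2 (norm_nonneg _) ((norm_nonneg _).trans i1)
    _ = (M ^ 2 * (w k A y * w m B z) ^ 2) * (R ^ (2 * (k + m)) * R' ^ (2 * (k + m))) := by
        ring
    _ ≤ _ := by
        apply mul_le_mul_of_nonneg_left _ (by positivity)
        apply mul_le_mul _ _ (by positivity) (by positivity)
        · exact pow_le_pow_right₀ hR (by omega)
        · exact pow_le_pow_right₀ hR' (by omega)

theorem ff_sq (k m : ℕ) (G : ℝ → ℂ) (e1 e2 y z r t : ℝ) :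
    ff k m G e1 e2 y z r t * ff k m G e1 e2 y z r t =
    ∫ x : ℝ × ℝ, (h0 k m G x.1 * h0 k m G x.2) *
      Complex.exp (-((r : ℂ) * (((|Real.cos x.1| + |Real.cos x.2| : ℝ) : ℂ) *
      ((y : ℂ) - e1 * I))) - (t : ℂ) * (((|Real.sin x.1| + |Real.sin x.2| : ℝ) : ℂ) *
      ((z : ℂ) - e2 * I))) ∂((volume.restrict Q).prod (volume.restrict Q)) := by
  rw [ff_abs, ← integral_prod_mul]
  congr 1
  ext x
  rw [mul_mul_mul_comm, ← Complex.exp_add]
  congr 2
  push_cast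
  ring

theorem ker2 (k m : ℕ) (G : ℝ → ℂ) (hG : Measurable G) (M : ℝ) (hM : ∀ θ, ‖G θ‖ ≤ M)
    (A B : ℝ) (hA : 0 < A) (hB : 0 < B) (y z e1 e2 : ℝ) (hy : 0 < y) (hz : 0 < z)
    (he1 : e1 ^ 2 = 1) (he2 : e2 ^ 2 = 1) :
    ∫⁻ r in Ioi (0 : ℝ), ∫⁻ t in Ioi (0 : ℝ), ENNReal.ofReal (ka (4 * (k + m) + 1) A r *
        ka (4 * (k + m) + 1) B t * ‖ff k m G e1 e2 y z r t‖ ^ 4) ≤
      ENNReal.ofReal (((4 * (k + m) + 1).factorial : ℝ) ^ 2 * (M ^ 4 *
        (w k A y * w m B z) ^ 4)) * ∫⁻ x in Q, ∫⁻ x' in Q, ∫⁻ v in Q, ∫⁻ v' in Q,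
        ENNReal.ofReal (K A (Real.cos x + Real.cos x' - Real.cos v - Real.cos v') *
          K B (Real.sin x + Real.sin x' - Real.sin v - Real.sin v')) := by
  have hM0 : 0 ≤ M := (norm_nonneg _).trans (hM 0)
  have hw1 := T2.w_nonneg k hA hy
  have hw2 := T2.w_nonneg m hB hz
  have hsq : ∀ r t : ℝ, ‖ff k m G e1 e2 y z r t‖ ^ 4 = ‖∫ x : ℝ × ℝ, (h0 k m G x.1 * h0 k m G x.2) *
      Complex.exp (-((r : ℂ) * (((|Real.cos x.1| + |Real.cos x.2| : ℝ) : ℂ) *
      ((y : ℂ) - e1 * I))) - (t : ℂ) * (((|Real.sin x.1| + |Real.sin x.2| : ℝ) : ℂ) *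
      ((z : ℂ) - e2 * I))) ∂((volume.restrict Q).prod (volume.restrict Q))‖ ^ 2 := by
    intro r t
    rw [← ff_sq, norm_mul]
    ring
  simp_rw [hsq]
  refine (gk ((volume.restrict Q).prod (volume.restrict Q))
    (fun x : ℝ × ℝ => h0 k m G x.1 * h0 k m G x.2)
    (fun x : ℝ × ℝ => |Real.cos x.1| + |Real.cos x.2|)
    (fun x : ℝ × ℝ => |Real.sin x.1| + |Real.sin x.2|)
    (((h0_meas k m G hG).comp measurable_fst).mul ((h0_meas k m G hG).comp measurable_snd))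
    (by fun_prop) (by fun_prop) (M * M) ?_ (fun _ => by positivity)
    (fun _ => by positivity) (k + m) A B hA hB y z e1 e2 hy.le hz.le he1 he2).trans ?_
  · intro x
    rw [norm_mul]
    exact mul_le_mul (h0_le k m G M hM _) (h0_le k m G M hM _) (norm_nonneg _) hM0
  rw [ENNReal.ofReal_mul (by positivity), mul_assoc]
  apply mul_le_mul_right
  have hmeas : Measurable fun p : (ℝ × ℝ) × (ℝ × ℝ) =>
      ENNReal.ofReal (K A (Real.cos p.1.1 + Real.cos p.1.2 - Real.cos p.2.1 - Real.cos p.2.2) *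
          K B (Real.sin p.1.1 + Real.sin p.1.2 - Real.sin p.2.1 - Real.sin p.2.2)) := by
    unfold K
    fun_prop
  have hiter : ∫⁻ x in Q, ∫⁻ x' in Q, ∫⁻ v in Q, ∫⁻ v' in Q,
        ENNReal.ofReal (K A (Real.cos x + Real.cos x' - Real.cos v - Real.cos v') *
          K B (Real.sin x + Real.sin x' - Real.sin v - Real.sin v')) =
      ∫⁻ x : ℝ × ℝ, ∫⁻ x' : ℝ × ℝ,
        ENNReal.ofReal (K A (Real.cos x.1 + Real.cos x.2 - Real.cos x'.1 - Real.cos x'.2) *
          K B (Real.sin x.1 + Real.sin x.2 - Real.sin x'.1 - Real.sin x'.2))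
        ∂((volume.restrict Q).prod (volume.restrict Q))
        ∂((volume.restrict Q).prod (volume.restrict Q)) := by
    rw [lintegral_prod]
    · congr 1
      ext x
      congr 1
      ext x'
      rw [lintegral_prod]
      exact (hmeas.comp (measurable_const.prodMk measurable_id)).aemeasurable
    · exact (Measurable.lintegral_prod_right' hmeas).aemeasurable
  rw [hiter, Measure.prod_restrict]
  rw [← lintegral_const_mul' _ _ ENNReal.ofReal_ne_top]
  apply setLIntegral_mono' (measurableSet_Ioo.prod measurableSet_Ioo)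
  intro x hx
  rw [← lintegral_const_mul' _ _ ENNReal.ofReal_ne_top]
  apply setLIntegral_mono' (measurableSet_Ioo.prod measurableSet_Ioo)
  intro x' hx'
  rw [← ENNReal.ofReal_mul (by positivity)]
  apply ENNReal.ofReal_le_ofReal
  have c1 := Q_cos hx.1
  have c2 := Q_cos hx.2
  have c3 := Q_cos hx'.1
  have c4 := Q_cos hx'.2
  have s1 := Q_sin hx.1
  have s2 := Q_sin hx.2
  have s3 := Q_sin hx'.1
  have s4 := Q_sin hx'.2
  simp only [abs_of_pos c1, abs_of_pos c2, abs_of_pos c3, abs_of_pos c4, abs_of_pos s1,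
    abs_of_pos s2, abs_of_pos s3, abs_of_pos s4, ← sub_sub]
  apply mul_le_mul_of_nonneg_right _ (mul_nonneg (K_nn hA) (K_nn hB))
  have hAy : 0 < A * y := by positivity
  have hBz : 0 < B * z := by positivity
  have p1 := mul_pos hAy c1
  have p2 := mul_pos hAy c2
  have p3 := mul_pos hAy c3
  have p4 := mul_pos hAy c4
  have q1 := mul_pos hBz s1
  have q2 := mul_pos hBz s2
  have q3 := mul_pos hBz s3
  have q4 := mul_pos hBz s4
  have i1 := h0_w k m (k + m) (by omega) (by omega) G M hM hA hB hy hz x.1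
    (1 + A * y * (Real.cos x.1 + Real.cos x.2 + (Real.cos x'.1 + Real.cos x'.2)))
    (1 + B * z * (Real.sin x.1 + Real.sin x.2 + (Real.sin x'.1 + Real.sin x'.2)))
    (by rw [abs_of_pos c1]; linarith) (by rw [abs_of_pos s1]; linarith)
  have i2 := h0_w k m (k + m) (by omega) (by omega) G M hM hA hB hy hz x.2
    (1 + A * y * (Real.cos x.1 + Real.cos x.2 + (Real.cos x'.1 + Real.cos x'.2)))
    (1 + B * z * (Real.sin x.1 + Real.sin x.2 + (Real.sin x'.1 + Real.sin x'.2)))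
    (by rw [abs_of_pos c2]; linarith) (by rw [abs_of_pos s2]; linarith)
  have i3 := h0_w k m (k + m) (by omega) (by omega) G M hM hA hB hy hz x'.1
    (1 + A * y * (Real.cos x.1 + Real.cos x.2 + (Real.cos x'.1 + Real.cos x'.2)))
    (1 + B * z * (Real.sin x.1 + Real.sin x.2 + (Real.sin x'.1 + Real.sin x'.2)))
    (by rw [abs_of_pos c3]; linarith) (by rw [abs_of_pos s3]; linarith)
  have i4 := h0_w k m (k + m) (by omega) (by omega) G M hM hA hB hy hz x'.2
    (1 + A * y * (Real.cos x.1 + Real.cos x.2 + (Real.cos x'.1 + Real.cos x'.2)))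
    (1 + B * z * (Real.sin x.1 + Real.sin x.2 + (Real.sin x'.1 + Real.sin x'.2)))
    (by rw [abs_of_pos c4]; linarith) (by rw [abs_of_pos s4]; linarith)
  have hR : 1 ≤ 1 + A * y * (Real.cos x.1 + Real.cos x.2 + (Real.cos x'.1 + Real.cos x'.2)) := by
    linarith
  have hR' : 1 ≤ 1 + B * z * (Real.sin x.1 + Real.sin x.2 + (Real.sin x'.1 + Real.sin x'.2)) := by
    linarith
  set R := 1 + A * y * (Real.cos x.1 + Real.cos x.2 + (Real.cos x'.1 + Real.cos x'.2))
  set R' := 1 + B * z * (Real.sin x.1 + Real.sin x.2 + (Real.sin x'.1 + Real.sin x'.2))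
  have hR0 : 0 < R := by linarith
  have hR0' : 0 < R' := by linarith
  rw [div_le_iff₀ (by positivity), norm_mul, norm_mul]
  set W := M * (w k A y * w m B z) * (R ^ (k + m) * R' ^ (k + m))
  have hW : 0 ≤ W := (norm_nonneg _).trans i1
  calc _ ≤ (W * W) * (W * W) := by
        apply mul_le_mul _ _ (by positivity) (by positivity)
        · exact mul_le_mul i1 i2 (norm_nonneg _) hW
        · exact mul_le_mul i3 i4 (norm_nonneg _) hW
    _ = _ := by
        simp only [W]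
        ring

end Pool.Agent.H438R2.BR
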