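import Mathlib
import Pool.Agent.H97.L.Tf0cf7b00.H438R2.BR.Core
import Pool.Agent.H97.L.Tf0cf7b00.H438R2.BR.Fam
set_option autoImplicit false

/-! Densities depending on the length of the projection to a subspace. -/

namespace Pool.Agent.H438R2.BR

open MeasureTheory Set Complex Module
open scoped ENNReal RealInnerProductSpace
open Pool.Agent.H789R2.FR (E sg sg_ae sg_inv)

/-- an isometry which turns the length of the projection into the length of the first block -/
theorem exists_frame (k m : ℕ) (V : Submodule ℝ (E (k + m))) (hV : finrank ℝ V = k) :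
    ∃ Λ : E (k + m) ≃ₗᵢ[ℝ] E (k + m), ∀ x, bn k m (Λ x) = ‖V.starProjection x‖ := by
  set bV : OrthonormalBasis (Fin k) ℝ V :=
    (stdOrthonormalBasis ℝ V).reindex (finCongr hV) with hbV
  set v : Fin (k + m) → E (k + m) := Fin.addCases (fun i => (bV i : E (k + m))) (fun _ => 0)
    with hv
  set s : Set (Fin (k + m)) := Set.range (Fin.castAdd m) with hs
  have hor : Orthonormal ℝ (s.domRestrict v) := by
    have h1 : Orthonormal ℝ (fun i : Fin k => (bV i : E (k + m))) := by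
      have := bV.orthonormal.comp_linearIsometry V.subtypeₗᵢ
      exact this
    rw [orthonormal_iff_ite]
    rintro ⟨i, hi⟩ ⟨j, hj⟩
    obtain ⟨i', rfl⟩ := hi
    obtain ⟨j', rfl⟩ := hj
    have h2 := (orthonormal_iff_ite.1 h1) i' j'
    simp only [Set.domRestrict_apply, hv, Fin.addCases_left, h2]
    by_cases h : i' = j'
    · subst h; simp
    · have h5 : ¬ (Fin.castAdd m i' = Fin.castAdd m j') := fun h6 =>
        h (Fin.castAdd_injective k m h6)
      rw [if_neg h, if_neg]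
      intro h7
      exact h5 (congrArg Subtype.val h7)
  obtain ⟨b, hb⟩ := hor.exists_orthonormalBasis_extension_of_card_eq (by simp)
  refine ⟨b.repr, ?_⟩
  intro x
  have hbi : ∀ i : Fin k, b (Fin.castAdd m i) = (bV i : E (k + m)) := by
    intro i
    rw [hb _ ⟨i, rfl⟩, hv]
    simp only [Fin.addCases_left]
  have h3 : ∑ i : Fin k, ((b.repr x) (Fin.castAdd m i)) ^ 2 = ‖V.starProjection x‖ ^ 2 := by
    have h4 := bV.sum_sq_inner_right (V.orthogonalProjectionOnto x)
    have h5 : ‖V.starProjection x‖ = ‖V.orthogonalProjectionOnto x‖ := rfl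
    rw [h5, ← h4]
    apply Finset.sum_congr rfl
    intro i _
    rw [b.repr_apply_apply, hbi, Submodule.inner_orthogonalProjectionOnto_eq_of_mem_left]
  unfold bn
  rw [h3, Real.sqrt_sq (norm_nonneg _)]

theorem U_eq (k m : ℕ) (V : Submodule ℝ (E (k + m))) (Λ : E (k + m) ≃ₗᵢ[ℝ] E (k + m))
    (hΛ : ∀ x, bn k m (Λ x) = ‖V.starProjection x‖) (γ : ℝ → ℂ) (ξ : E (k + m)) :
    Fam.U (fun w => ‖V.starProjection w‖) γ ξ = TT k m γ ((2 * Real.pi) • Λ ξ) := by
  unfold Fam.U TT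
  rw [← (sg_inv Λ).integral_comp Λ.toHomeomorph.measurableEmbedding
    (fun z => Complex.exp (-((⟪(2 * Real.pi) • Λ ξ, z⟫ : ℝ) : ℂ) * I) * γ (bn k m z))]
  congr 1
  ext w
  rw [hΛ, real_inner_smul_left, Λ.inner_map_map, real_inner_comm]

theorem good_V (k m : ℕ) (hk : 2 ≤ k) (hm : 2 ≤ m) (p : ℝ)
    (hp : 2 * ((k : ℝ) + m) / ((k : ℝ) + m - 1) < p) : ∃ C : ℝ, 0 < C ∧
    ∀ (V : Submodule ℝ (E (k + m))), finrank ℝ V = k →
      Fam.Good (fun w => ‖V.starProjection w‖) p C := by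
  obtain ⟨C, hC, hcore⟩ := core k m hk hm p hp
  refine ⟨C, hC, ?_⟩
  intro V hV γ M hγ hM
  obtain ⟨Λ, hΛ⟩ := exists_frame k m V hV
  have hM0 : 0 ≤ M := (norm_nonneg _).trans (hM 0)
  simp_rw [U_eq k m V Λ hΛ]
  have hmeas : Measurable fun x : E (k + m) => ENNReal.ofReal (‖TT k m γ x‖ ^ p) :=
    ((TT_meas k m γ hγ).norm.pow_const p).ennreal_ofReal
  have hmeas2 : Measurable fun x : E (k + m) =>
      ENNReal.ofReal (‖TT k m γ ((2 * Real.pi) • x)‖ ^ p) := by
    have h1 : Measurable fun x : E (k + m) => (2 * Real.pi) • x := measurable_const_smul _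
    have h2 := Measurable.comp hmeas h1
    exact h2
  have h1 : ∫⁻ ξ, ENNReal.ofReal (‖TT k m γ ((2 * Real.pi) • Λ ξ)‖ ^ p) =
      ∫⁻ ξ, ENNReal.ofReal (‖TT k m γ ((2 * Real.pi) • ξ)‖ ^ p) :=
    Λ.measurePreserving.lintegral_comp hmeas2
  rw [h1]
  have h2pi : (2 * Real.pi) ≠ 0 := by positivity
  have h3 := Measure.map_addHaar_smul (volume : Measure (E (k + m))) h2pi
  have h4 : ∫⁻ x : E (k + m), ENNReal.ofReal (‖TT k m γ x‖ ^ p)
      ∂(Measure.map ((2 * Real.pi) • · : E (k + m) → E (k + m)) volume) =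
      ∫⁻ ξ : E (k + m), ENNReal.ofReal (‖TT k m γ ((2 * Real.pi) • ξ)‖ ^ p) :=
    lintegral_map hmeas (measurable_const_smul _)
  rw [← h4, h3, lintegral_smul_measure, smul_eq_mul]
  have h5 : ENNReal.ofReal |((2 * Real.pi) ^ Module.finrank ℝ (E (k + m)))⁻¹| ≤ 1 := by
    rw [ENNReal.ofReal_le_one, abs_of_nonneg (by positivity)]
    apply inv_le_one_of_one_le₀
    apply one_le_pow₀
    linarith [Real.pi_gt_three]
  calc _ ≤ 1 * ∫⁻ x : E (k + m), ENNReal.ofReal (‖TT k m γ x‖ ^ p) := by gcongr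
    _ ≤ _ := by
        rw [one_mul]
        exact hcore γ M hγ hM

end Pool.Agent.H438R2.BR
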